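import Pool.Agent.Helper76_TOR.TwQ
import Pool.Agent.Helper18_TNF.Lin

/-! TOW: module LIN (linear algebra). -/

set_option autoImplicit false

namespace Pool.Agent.TOW.H29

open FreeGroup Pool.Agent.TST Pool.Agent.TOR Pool.Agent.TOR.H59 Pool.Agent.TOR96
open Pool.Agent.TOR.H29 Pool.Agent.TOR.SA Pool.Agent.TNF Pool.Agent.TOW

variable {K g : ℕ}

/-- class of a near letter -/
def nl (K g : ℕ) (l : Fin 2 × Fin (g + 1)) : Hh (K + (g + 1)) := Pi.single (hiE K (g + 1) l) 1

theorem ev_cf (i : Fin K) : ev (of ((1 : Fin 2), Fin.castAdd (g + 1) i)) = cf K g i := ev_of _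

theorem ev_xf (i : Fin K) : ev (of ((0 : Fin 2), Fin.castAdd (g + 1) i)) = xf K g i := ev_of _

theorem ev_nl (l : Fin 2 × Fin (g + 1)) : ev (of (hiE K (g + 1) l)) = nl K g l := ev_of _

theorem nl_lo (l : Fin 2 × Fin (g + 1)) (a : Fin 2) (i : Fin K) :
    nl K g l (a, Fin.castAdd (g + 1) i) = 0 := by
  unfold nl
  refine Pi.single_eq_of_ne (fun h => ?_) _
  have h1 := congrArg (fun p : Fin 2 × Fin (K + (g + 1)) => (p.2 : ℕ)) h
  change ((Fin.castAdd (g + 1) i : Fin (K + (g + 1))) : ℕ) = (Fin.natAdd K l.2 : Fin _) at h1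
  rw [Fin.val_castAdd, Fin.val_natAdd] at h1
  omega

theorem sf_cf_nl (i : Fin K) (l : Fin 2 × Fin (g + 1)) : sf (cf K g i) (nl K g l) = 0 := by
  rw [sf_cf, nl_lo, neg_zero]

theorem sf_xf_nl (i : Fin K) (l : Fin 2 × Fin (g + 1)) : sf (xf K g i) (nl K g l) = 0 := by
  rw [sf_xf, nl_lo]

theorem sf_xf_xf (i j : Fin K) : sf (xf K g i) (xf K g j) = 0 := by
  rw [sf_xf, xf_one]

theorem sf_cf_xf (i j : Fin K) : sf (cf K g i) (xf K g j) = if i = j then -1 else 0 := by
  rw [sf_swap, sf_xf_cf]
  by_cases h : i = j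
  · rw [if_pos h, if_pos h.symm]
  · rw [if_neg h, if_neg (Ne.symm h), neg_zero]

theorem sf_vn_xf (j : Fin K) : sf (vn K g) (xf K g j) = 0 := by
  rw [sf_swap, sf_xf_vn, neg_zero]

theorem EL_add (lam : Fin K → ℤ) (sig : Fin K → Fin K → ℤ) (y z : Hh (K + (g + 1))) :
    EL K g lam sig (y + z) = EL K g lam sig y + EL K g lam sig z := by
  unfold EL
  rw [sf_add_left, sf_add_left, Qp_add, add_smul, add_smul]
  abel

/-- EL as an additive homomorphism -/
noncomputable def ELH (lam : Fin K → ℤ) (sig : Fin K → Fin K → ℤ) :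
    Hh (K + (g + 1)) →+ Hh (K + (g + 1)) where
  toFun := EL K g lam sig
  map_zero' := by
    have h := EL_add lam sig (0 : Hh (K + (g + 1))) 0
    rw [add_zero] at h
    simpa using h
  map_add' := EL_add lam sig

theorem hom_ext {n : ℕ} {f h : Hh n →+ Hh n} (hh : ∀ l, f (Pi.single l 1) = h (Pi.single l 1)) :
    f = h := by
  refine AddMonoidHom.ext fun y => ?_
  have hy : y = ∑ l, y l • (Pi.single l 1 : Hh n) := by
    funext l
    rw [Finset.sum_apply, Finset.sum_eq_single l]
    · simp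
    · intro b _ hb
      rw [Pi.smul_apply, Pi.single_eq_of_ne (Ne.symm hb), smul_zero]
    · intro h; exact absurd (Finset.mem_univ _) h
  rw [hy, map_sum, map_sum]
  refine Finset.sum_congr rfl fun l _ => ?_
  rw [map_zsmul, map_zsmul, hh]

theorem EL_cf (lam : Fin K → ℤ) (sig : Fin K → Fin K → ℤ) (i : Fin K) :
    EL K g lam sig (cf K g i) = cf K g i := by
  unfold EL
  rw [sf_cf_vn, sf_cf_Lm, zero_smul, zero_smul, add_zero, add_zero]
  have : Qp K g sig (cf K g i) = 0 := by
    unfold Qp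
    refine Finset.sum_eq_zero fun a _ => Finset.sum_eq_zero fun b _ => ?_
    rw [sf_cf_cf, mul_zero, zero_smul]
  rw [this, add_zero]

theorem EL_nl (lam : Fin K → ℤ) (sig : Fin K → Fin K → ℤ) (l : Fin 2 × Fin (g + 1)) :
    EL K g lam sig (nl K g l) = nl K g l + sf (nl K g l) (vn K g) • Lm K g lam := by
  have h1 : ∀ i, sf (nl K g l) (cf K g i) = 0 := fun i => by rw [sf_swap, sf_cf_nl, neg_zero]
  unfold EL
  have h2 : sf (nl K g l) (Lm K g lam) = 0 := by
    rw [sf_Lm_right]
    exact Finset.sum_eq_zero fun i _ => by rw [h1, mul_zero]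
  have : Qp K g sig (nl K g l) = 0 := by
    unfold Qp
    refine Finset.sum_eq_zero fun a _ => Finset.sum_eq_zero fun b _ => ?_
    rw [h1, mul_zero, zero_smul]
  rw [this, h2, zero_smul, add_zero, add_zero]

theorem lin : LIN := by
  intro K g φ n h1 h2 h3
  choose m hm using h2
  choose m' hm' using h3
  have a1 : ∀ i, hact φ (cf K g i) = cf K g i := fun i => by rw [← ev_cf, hact_ev, h1, ev_cf]
  have a2 : ∀ i, hact φ (xf K g i) = xf K g i + n i • vn K g + ∑ j, m i j • cf K g j := fun i => by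
    rw [← ev_xf, hact_ev, hm, ev_xf]
  have a3 : ∀ l, hact φ (nl K g l) = nl K g l + ∑ j, m' l j • cf K g j := fun l => by
    rw [← ev_nl, hact_ev, hm', ev_nl]; rfl
  -- symmetry
  have b1 : ∀ i k, m i k = m k i := by
    intro i k
    have h := sf_hact φ (xf K g i) (xf K g k)
    rw [a2, a2, sf_xf_xf] at h
    rw [sf_add_left, sf_add_left, sf_add_right, sf_add_right, sf_add_right, sf_add_right,
      sf_add_right, sf_add_right, sf_xf_xf, sf_smul_right, sf_xf_vn, sf_smul_left, sf_smul_left,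
      sf_smul_left, sf_smul_right, sf_vn_xf, sf_vn_vn] at h
    have e1 : sf (xf K g i) (∑ j, m k j • cf K g j) = m k i := by
      rw [sf_sum_right, Finset.sum_eq_single i]
      · rw [sf_smul_right, sf_xf_cf, if_pos rfl, mul_one]
      · intro j _ hj
        rw [sf_smul_right, sf_xf_cf, if_neg (Ne.symm hj), mul_zero]
      · intro h; exact absurd (Finset.mem_univ _) h
    have e2 : sf (vn K g) (∑ j, m k j • cf K g j) = 0 := by
      rw [sf_sum_right]
      exact Finset.sum_eq_zero fun j _ => by rw [sf_smul_right, sf_vn_cf, mul_zero]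
    have e3 : sf (∑ j, m i j • cf K g j) (xf K g k) = - m i k := by
      rw [sf_sum_left, Finset.sum_eq_single k]
      · rw [sf_smul_left, sf_cf_xf, if_pos rfl, mul_neg_one]
      · intro j _ hj
        rw [sf_smul_left, sf_cf_xf, if_neg hj, mul_zero]
      · intro h; exact absurd (Finset.mem_univ _) h
    have e4 : sf (∑ j, m i j • cf K g j) (n k • vn K g) = 0 := by
      rw [sf_sum_left]
      exact Finset.sum_eq_zero fun j _ => by
        rw [sf_smul_left, sf_smul_right, sf_cf_vn, mul_zero, mul_zero]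
    have e5 : sf (∑ j, m i j • cf K g j) (∑ j, m k j • cf K g j) = 0 := by
      rw [sf_sum_left]
      refine Finset.sum_eq_zero fun j _ => ?_
      rw [sf_smul_left, sf_sum_right, Finset.sum_eq_zero, mul_zero]
      intro j' _
      rw [sf_smul_right, sf_cf_cf, mul_zero]
    rw [e1, e2, e3, e4, e5] at h
    linarith
  -- near part
  have b2 : ∀ l i, m' l i = sf (nl K g l) (vn K g) * n i := by
    intro l i
    have h := sf_hact φ (xf K g i) (nl K g l)
    rw [a2, a3, sf_xf_nl] at h
    rw [sf_add_left, sf_add_left, sf_add_right, sf_add_right, sf_add_right, sf_xf_nl,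
      sf_smul_left, sf_smul_left, sf_swap (vn K g) (nl K g l)] at h
    have e1 : sf (xf K g i) (∑ j, m' l j • cf K g j) = m' l i := by
      rw [sf_sum_right, Finset.sum_eq_single i]
      · rw [sf_smul_right, sf_xf_cf, if_pos rfl, mul_one]
      · intro j _ hj
        rw [sf_smul_right, sf_xf_cf, if_neg (Ne.symm hj), mul_zero]
      · intro h; exact absurd (Finset.mem_univ _) h
    have e2 : sf (vn K g) (∑ j, m' l j • cf K g j) = 0 := by
      rw [sf_sum_right]
      exact Finset.sum_eq_zero fun j _ => by rw [sf_smul_right, sf_vn_cf, mul_zero]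
    have e3 : sf (∑ j, m i j • cf K g j) (nl K g l) = 0 := by
      rw [sf_sum_left]
      exact Finset.sum_eq_zero fun j _ => by rw [sf_smul_left, sf_cf_nl, mul_zero]
    have e5 : sf (∑ j, m i j • cf K g j) (∑ j, m' l j • cf K g j) = 0 := by
      rw [sf_sum_left]
      refine Finset.sum_eq_zero fun j _ => ?_
      rw [sf_smul_left, sf_sum_right, Finset.sum_eq_zero, mul_zero]
      intro j' _
      rw [sf_smul_right, sf_cf_cf, mul_zero]
    rw [e1, e2, e3, e5] at h
    linarith
  refine ⟨m, isE_iff.2 ⟨b1, fun y => ?_⟩⟩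
  have key : hactH φ = ELH n m := by
    refine hom_ext fun l => ?_
    change hact φ (Pi.single l 1) = EL K g n m (Pi.single l 1)
    rcases split_eq l with ⟨l', rfl⟩ | ⟨⟨a, i⟩, rfl⟩
    · change hact φ (nl K g l') = EL K g n m (nl K g l')
      rw [a3, EL_nl]
      congr 1
      unfold Lm
      rw [Finset.smul_sum]
      exact Finset.sum_congr rfl fun j _ => by rw [b2, mul_smul]
    · fin_cases a
      · change hact φ (xf K g i) = EL K g n m (xf K g i)
        rw [a2, EL_xf]
      · change hact φ (cf K g i) = EL K g n m (cf K g i)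
        rw [a1, EL_cf]
  exact DFunLike.congr_fun key y

end Pool.Agent.TOW.H29
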